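import Pool.Agent.Helper15.T4.Stmts

/-! Modulus of a complex Gaussian integral. -/

namespace Pool.Agent.Helper38.T4

open Pool.Agent.Helper15.T4 Matrix MeasureTheory

theorem gs_spec {ι : Type} [Fintype ι] [DecidableEq ι] (A : Matrix ι ι ℝ) (hA : A.IsSymm) :
    ∃ (O : Matrix ι ι ℝ) (d : ι → ℝ), Oᵀ * O = 1 ∧ Oᵀ * A * O = diagonal d := by
  have hA' : A.IsHermitian := by
    rw [Matrix.IsHermitian, conjTranspose_eq_transpose_of_trivial]
    exact hA
  have h1 : (hA'.eigenvectorUnitary : Matrix ι ι ℝ)ᵀ * (hA'.eigenvectorUnitary : Matrix ι ι ℝ) = 1 := by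
    have h := Unitary.coe_star_mul_self hA'.eigenvectorUnitary
    rw [Matrix.star_eq_conjTranspose, conjTranspose_eq_transpose_of_trivial] at h
    exact h
  refine ⟨(hA'.eigenvectorUnitary : Matrix ι ι ℝ), hA'.eigenvalues, h1, ?_⟩
  have h2 := hA'.conjStarAlgAut_star_eigenvectorUnitary
  rw [Unitary.conjStarAlgAut_star_apply, Matrix.star_eq_conjTranspose,
    conjTranspose_eq_transpose_of_trivial] at h2
  rw [h2]
  rfl

theorem gs_simul {ι : Type} [Fintype ι] [DecidableEq ι] (A B : Matrix ι ι ℝ) (hA : A.IsSymm)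
    (hB : B.IsSymm) (hpos : ∀ x : ι → ℝ, x ≠ 0 → 0 < x ⬝ᵥ (A *ᵥ x)) :
    ∃ (L : Matrix ι ι ℝ) (c : ι → ℝ), Lᵀ * A * L = 1 ∧ Lᵀ * B * L = diagonal c := by
  obtain ⟨O, d, hO, hd⟩ := gs_spec A hA
  have hdp : ∀ j, 0 < d j := by
    intro j
    have hne : O *ᵥ (Pi.single j 1) ≠ 0 := by
      intro h0
      have h1 : (Oᵀ * O) *ᵥ (Pi.single j 1) = 0 := by
        rw [← mulVec_mulVec, h0, mulVec_zero]
      rw [hO, one_mulVec] at h1
      have h2 := congrFun h1 j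
      simp at h2
    have h1 := hpos _ hne
    have h2 : (O *ᵥ (Pi.single j 1)) ⬝ᵥ (A *ᵥ (O *ᵥ (Pi.single j 1))) =
        (Pi.single j 1 : ι → ℝ) ⬝ᵥ ((Oᵀ * A * O) *ᵥ (Pi.single j 1)) := by
      rw [← mulVec_mulVec, ← mulVec_mulVec, dotProduct_mulVec (Pi.single j 1) Oᵀ,
        vecMul_transpose]
    rw [h2, hd] at h1
    simpa using h1
  obtain ⟨R, hR⟩ : ∃ R : Matrix ι ι ℝ, R = O * diagonal (fun j => (Real.sqrt (d j))⁻¹) := ⟨_, rfl⟩
  have hRA : Rᵀ * A * R = 1 := by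
    have h1 : Rᵀ * A * R = diagonal (fun j => (Real.sqrt (d j))⁻¹) * (Oᵀ * A * O) *
        diagonal (fun j => (Real.sqrt (d j))⁻¹) := by
      rw [hR, transpose_mul, diagonal_transpose]
      simp only [Matrix.mul_assoc]
    rw [h1, hd, diagonal_mul_diagonal, diagonal_mul_diagonal, ← diagonal_one]
    congr 1
    funext j
    have h2 := hdp j
    have h3 := Real.mul_self_sqrt h2.le
    have h4 : Real.sqrt (d j) ≠ 0 := (Real.sqrt_pos.mpr h2).ne'
    field_simp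
    rw [sq, h3]
  have hC : (Rᵀ * B * R).IsSymm := by
    rw [Matrix.IsSymm, transpose_mul, transpose_mul, transpose_transpose, hB.eq, Matrix.mul_assoc]
  obtain ⟨O', c, hO', hc⟩ := gs_spec _ hC
  refine ⟨R * O', c, ?_, ?_⟩
  · have h1 : (R * O')ᵀ * A * (R * O') = O'ᵀ * (Rᵀ * A * R) * O' := by
      rw [transpose_mul]
      simp only [Matrix.mul_assoc]
    rw [h1, hRA, Matrix.mul_one, hO']
  · have h1 : (R * O')ᵀ * B * (R * O') = O'ᵀ * (Rᵀ * B * R) * O' := by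
      rw [transpose_mul]
      simp only [Matrix.mul_assoc]
    rw [h1, hc]

theorem gs_one (c : ℝ) : ‖∫ y : ℝ, Complex.exp (-((1 + (c : ℂ) * Complex.I) * (y : ℂ) ^ 2) / 2)‖ ^ 2 =
    2 * Real.pi / ‖(1 + (c : ℂ) * Complex.I)‖ := by
  have hre : 0 < ((1 + (c : ℂ) * Complex.I) / 2).re := by
    have : ((1 + (c : ℂ) * Complex.I) / 2) = ((1 / 2 : ℝ) : ℂ) + ((c / 2 : ℝ) : ℂ) * Complex.I := by
      push_cast
      ring
    rw [this]
    simp
  have h1 := integral_gaussian_complex hre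
  have h2 : (fun y : ℝ => Complex.exp (-((1 + (c : ℂ) * Complex.I) * (y : ℂ) ^ 2) / 2)) =
      fun y : ℝ => Complex.exp (-((1 + (c : ℂ) * Complex.I) / 2) * (y : ℂ) ^ 2) := by
    funext y
    congr 1
    ring
  rw [h2, h1]
  have hne : (1 + (c : ℂ) * Complex.I) ≠ 0 := by
    intro h
    rw [h] at hre
    simp at hre
  have h3 : ((Real.pi : ℂ) / ((1 + (c : ℂ) * Complex.I) / 2)) = 2 * (Real.pi : ℂ) / (1 + (c : ℂ) * Complex.I) := by
    field_simp
  rw [h3, ← norm_pow, ← Complex.cpow_mul_nat]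
  norm_num
  rw [abs_of_pos Real.pi_pos]

theorem gs_prod {ι : Type} [Fintype ι] (c : ι → ℝ) :
    ‖∫ y : ι → ℝ, Complex.exp (-(∑ j, (1 + (c j : ℂ) * Complex.I) * (y j : ℂ) ^ 2) / 2)‖ ^ 2 =
    (2 * Real.pi) ^ (Fintype.card ι) / ∏ j, ‖(1 + (c j : ℂ) * Complex.I)‖ := by
  have h1 : (fun y : ι → ℝ => Complex.exp (-(∑ j, (1 + (c j : ℂ) * Complex.I) * (y j : ℂ) ^ 2) / 2)) =
      fun y : ι → ℝ => ∏ j, (fun (j : ι) (z : ℝ) =>
        Complex.exp (-((1 + (c j : ℂ) * Complex.I) * (z : ℂ) ^ 2) / 2)) j (y j) := by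
    funext y
    rw [← Complex.exp_sum]
    congr 1
    rw [← Finset.sum_div, ← Finset.sum_neg_distrib]
  have h3 := integral_fintype_prod_volume_eq_prod (𝕜 := ℂ) (ι := ι) (E := fun _ => ℝ)
    (fun (j : ι) (z : ℝ) => Complex.exp (-((1 + (c j : ℂ) * Complex.I) * (z : ℂ) ^ 2) / 2))
  rw [h1, h3, norm_prod, ← Finset.prod_pow]
  have h2 : ∀ j, ‖∫ z : ℝ, Complex.exp (-((1 + (c j : ℂ) * Complex.I) * (z : ℂ) ^ 2) / 2)‖ ^ 2 =
    2 * Real.pi / ‖(1 + (c j : ℂ) * Complex.I)‖ := fun j => gs_one (c j)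
  rw [Finset.prod_congr rfl (fun j _ => h2 j), Finset.prod_div_distrib, Finset.prod_const,
    Finset.card_univ]

theorem gs_cov {ι : Type} [Fintype ι] [DecidableEq ι] (L : Matrix ι ι ℝ) (hL : L.det ≠ 0)
    (f : (ι → ℝ) → ℂ) (hf : Continuous f) :
    ∫ y : ι → ℝ, f (L *ᵥ y) = ((|L.det|⁻¹ : ℝ) : ℂ) * ∫ x : ι → ℝ, f x := by
  have h1 := Real.map_matrix_volume_pi_eq_smul_volume_pi hL
  have hc : Continuous (Matrix.toLin' L) := LinearMap.continuous_on_pi _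
  have h2 : ∫ x, f x ∂(Measure.map (Matrix.toLin' L) volume) = ∫ y, f (Matrix.toLin' L y) :=
    integral_map hc.measurable.aemeasurable hf.aestronglyMeasurable
  rw [h1, integral_smul_measure, ENNReal.toReal_ofReal (abs_nonneg _)] at h2
  have h3 : ∫ y : ι → ℝ, f (L *ᵥ y) = ∫ y, f (Matrix.toLin' L y) := by
    simp only [Matrix.toLin'_apply]
  rw [h3, ← h2, abs_inv, Complex.real_smul]

theorem st_GAUSS : ST_GAUSS := by
  intro ι _ _ M hM hpos
  obtain ⟨c0, hc0, hpos⟩ := hpos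
  obtain ⟨A, hA⟩ : ∃ A : Matrix ι ι ℝ, A = M.map Complex.re := ⟨_, rfl⟩
  obtain ⟨B, hB⟩ : ∃ B : Matrix ι ι ℝ, B = M.map Complex.im := ⟨_, rfl⟩
  have hAs : A.IsSymm := by
    rw [hA]
    exact hM.map _
  have hBs : B.IsSymm := by
    rw [hB]
    exact hM.map _
  have hAp : ∀ x : ι → ℝ, x ≠ 0 → 0 < x ⬝ᵥ (A *ᵥ x) := by
    intro x hx
    have h1 := hpos x
    have h2 : (∑ i, ∑ j, (x i : ℂ) * M i j * (x j : ℂ)).re = x ⬝ᵥ (A *ᵥ x) := by
      rw [Complex.re_sum, dotProduct]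
      refine Finset.sum_congr rfl fun i _ => ?_
      rw [Complex.re_sum, mulVec, dotProduct, Finset.mul_sum]
      refine Finset.sum_congr rfl fun j _ => ?_
      rw [Complex.re_mul_ofReal, Complex.re_ofReal_mul, hA, Matrix.map_apply]
      ring
    rw [h2] at h1
    refine lt_of_lt_of_le (mul_pos hc0 ?_) h1
    rw [nsq]
    obtain ⟨i, hi⟩ := Function.ne_iff.mp hx
    refine Finset.sum_pos' (fun i _ => sq_nonneg _) ⟨i, Finset.mem_univ i, ?_⟩
    exact sq_pos_of_ne_zero hi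
  obtain ⟨L, c, hLA, hLB⟩ := gs_simul A B hAs hBs hAp
  have hLdet : L.det ≠ 0 := by
    intro h
    have h1 := congrArg Matrix.det hLA
    rw [det_mul, det_mul, h, mul_zero, det_one] at h1
    exact zero_ne_one h1
  obtain ⟨Lc, hLc⟩ : ∃ Lc : Matrix ι ι ℂ, Lc = L.map (Complex.ofRealHom) := ⟨_, rfl⟩
  have hMsum : M = A.map Complex.ofRealHom + Complex.I • B.map Complex.ofRealHom := by
    ext i j
    rw [hA, hB]
    simp only [Matrix.add_apply, Matrix.smul_apply, Matrix.map_apply, Complex.ofRealHom_eq_coe, smul_eq_mul]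
    rw [mul_comm]
    exact (Complex.re_add_im (M i j)).symm
  have hcong : Lcᵀ * M * Lc = diagonal (fun j => 1 + (c j : ℂ) * Complex.I) := by
    have h1 : Lcᵀ * A.map Complex.ofRealHom * Lc = 1 := by
      rw [hLc, ← transpose_map, ← Matrix.map_mul, ← Matrix.map_mul, hLA]
      exact Matrix.map_one _ (map_zero _) (map_one _)
    have h2 : Lcᵀ * B.map Complex.ofRealHom * Lc = diagonal (fun j => (c j : ℂ)) := by
      rw [hLc, ← transpose_map, ← Matrix.map_mul, ← Matrix.map_mul, hLB]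
      exact Matrix.diagonal_map (map_zero _)
    rw [hMsum, Matrix.mul_add, Matrix.add_mul, h1, Matrix.mul_smul, Matrix.smul_mul, h2,
      ← diagonal_one, ← diagonal_smul, diagonal_add]
    congr 1
    funext j
    simp only [Pi.smul_apply, smul_eq_mul]
    ring
  have hquad : ∀ y : ι → ℝ, (∑ i, ∑ j, ((L *ᵥ y) i : ℂ) * M i j * ((L *ᵥ y) j : ℂ)) =
      ∑ j, (1 + (c j : ℂ) * Complex.I) * (y j : ℂ) ^ 2 := by
    intro y
    obtain ⟨yc, hyc⟩ : ∃ yc : ι → ℂ, yc = fun j => (y j : ℂ) := ⟨_, rfl⟩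
    have h1 : ∀ i, ((L *ᵥ y) i : ℂ) = (Lc *ᵥ yc) i := by
      intro i
      rw [mulVec, mulVec, dotProduct, dotProduct, Complex.ofReal_sum]
      refine Finset.sum_congr rfl fun j _ => ?_
      rw [hLc, hyc, Complex.ofReal_mul]
      rfl
    have h2 : (∑ i, ∑ j, ((L *ᵥ y) i : ℂ) * M i j * ((L *ᵥ y) j : ℂ)) =
        (Lc *ᵥ yc) ⬝ᵥ (M *ᵥ (Lc *ᵥ yc)) := by
      rw [dotProduct]
      refine Finset.sum_congr rfl fun i _ => ?_
      have h5 : (M *ᵥ (Lc *ᵥ yc)) i = ∑ j, M i j * (Lc *ᵥ yc) j := rfl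
      rw [h5, Finset.mul_sum]
      refine Finset.sum_congr rfl fun j _ => ?_
      rw [h1, h1, mul_assoc]
    have h3 : (Lc *ᵥ yc) ⬝ᵥ (M *ᵥ (Lc *ᵥ yc)) = yc ⬝ᵥ ((Lcᵀ * M * Lc) *ᵥ yc) := by
      rw [← mulVec_mulVec, ← mulVec_mulVec, dotProduct_mulVec yc Lcᵀ, vecMul_transpose]
    rw [h2, h3, hcong, dotProduct]
    refine Finset.sum_congr rfl fun j _ => ?_
    rw [mulVec_diagonal, hyc]
    ring
  have hdet : ‖M.det‖ * |L.det| ^ 2 = ∏ j, ‖(1 + (c j : ℂ) * Complex.I)‖ := by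
    have h1 := congrArg Matrix.det hcong
    rw [det_mul, det_mul, det_transpose, det_diagonal] at h1
    have h2 : Lc.det = ((L.det : ℝ) : ℂ) := by
      rw [hLc]
      exact (RingHom.map_det Complex.ofRealHom L).symm
    rw [h2] at h1
    have h3 := congrArg norm h1
    rw [norm_mul, norm_mul, Complex.norm_real, Real.norm_eq_abs, norm_prod] at h3
    rw [← h3]
    ring
  have hcont : Continuous (fun x : ι → ℝ =>
      Complex.exp (-(∑ i, ∑ j, (x i : ℂ) * M i j * (x j : ℂ)) / 2)) := by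
    fun_prop
  have hcov := gs_cov L hLdet _ hcont
  have h4 : (fun y : ι → ℝ => Complex.exp
      (-(∑ i, ∑ j, ((L *ᵥ y) i : ℂ) * M i j * ((L *ᵥ y) j : ℂ)) / 2)) =
      fun y : ι → ℝ => Complex.exp (-(∑ j, (1 + (c j : ℂ) * Complex.I) * (y j : ℂ) ^ 2) / 2) := by
    funext y
    rw [hquad y]
  rw [h4] at hcov
  have h5 := gs_prod c
  rw [hcov, norm_mul, mul_pow, Complex.norm_real, Real.norm_eq_abs, abs_inv, abs_abs] at h5
  have hLpos : 0 < |L.det| := abs_pos.mpr hLdet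
  have hPpos : 0 < ∏ j, ‖(1 + (c j : ℂ) * Complex.I)‖ := by
    refine Finset.prod_pos fun j _ => norm_pos_iff.mpr ?_
    intro h
    have := congrArg Complex.re h
    simp at this
  have hMpos : 0 < ‖M.det‖ := by
    by_contra hn
    have h6 : ‖M.det‖ = 0 := le_antisymm (not_lt.mp hn) (norm_nonneg _)
    rw [h6, zero_mul] at hdet
    exact hPpos.ne hdet
  rw [← hdet] at h5
  have h7 : (|L.det|⁻¹) ^ 2 ≠ 0 := pow_ne_zero _ (inv_ne_zero hLpos.ne')
  apply mul_left_cancel₀ h7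
  rw [h5, inv_pow]
  field_simp

end Pool.Agent.Helper38.T4
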